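import Pool.Agent.Helper158.Stall.Grp

/-!
Products of conjugacy classes under Kervaire extensions: a counterexample.

`G` is free on `b, c`; the extension is given by one equation `t t b t⁻¹ c = 1`.
-/

set_option autoImplicit false

namespace Pool.Agent.Results.MP_9999b4_al.KervaireClasses

open Pool.Agent.Helper158.Stall

section Defs

variable {G : Type} [Group G] {n : ℕ}

/-- the exponent sum of `t_i` -/
def expSum (i : Fin n) : Monoid.Coprod G (FreeGroup (Fin n)) →* Multiplicative ℤ :=
  Monoid.Coprod.lift 1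
    (FreeGroup.lift (fun k : Fin n => Multiplicative.ofAdd (if k = i then (1 : ℤ) else 0)))

/-- the matrix of exponent sums of a system of `n` equations in `n` unknowns -/
def expMatrix (w : Fin n → Monoid.Coprod G (FreeGroup (Fin n))) : Matrix (Fin n) (Fin n) ℤ :=
  Matrix.of (fun i j => Multiplicative.toAdd (expSum i (w j)))

/-- the group `H = (G * F) / ⟨⟨w_1, …, w_n⟩⟩` -/
abbrev Ext (w : Fin n → Monoid.Coprod G (FreeGroup (Fin n))) : Type :=
  Monoid.Coprod G (FreeGroup (Fin n)) ⧸ Subgroup.normalClosure (Set.range w)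

/-- the canonical map `G → H` -/
def incl (w : Fin n → Monoid.Coprod G (FreeGroup (Fin n))) : G →* Ext w :=
  (QuotientGroup.mk' (Subgroup.normalClosure (Set.range w))).comp Monoid.Coprod.inl

end Defs

/-- `1` is a product of conjugates of `g_1, …, g_r` (in this order) -/
def Dependent {K : Type} [Group K] {r : ℕ} (g : Fin r → K) : Prop :=
  ∃ c : Fin r → K, 1 = (List.ofFn (fun i => c i * g i * (c i)⁻¹)).prod

/-- the assertion of Q1, for all groups, all nonsingular systems, all tuples -/
def ConjectureG : Prop :=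
  ∀ (G : Type) [Group G] (n : ℕ), 1 ≤ n →
    ∀ w : Fin n → Monoid.Coprod G (FreeGroup (Fin n)), (expMatrix w).det ≠ 0 →
      ∀ (r : ℕ), 1 ≤ r → ∀ g : Fin r → G, Dependent (fun i => incl w (g i)) → Dependent g

/-! ### the example -/

/-- the letter `b` in the free product -/
def bb : Monoid.Coprod (FreeGroup (Fin 2)) (FreeGroup (Fin 1)) := Monoid.Coprod.inl (FreeGroup.of 0)
/-- the letter `c` -/
def cc : Monoid.Coprod (FreeGroup (Fin 2)) (FreeGroup (Fin 1)) := Monoid.Coprod.inl (FreeGroup.of 1)
/-- the unknown `t` -/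
def tt : Monoid.Coprod (FreeGroup (Fin 2)) (FreeGroup (Fin 1)) := Monoid.Coprod.inr (FreeGroup.of 0)

/-- the single equation `t t b t⁻¹ c` -/
def eqn : Fin 1 → Monoid.Coprod (FreeGroup (Fin 2)) (FreeGroup (Fin 1)) :=
  fun _ => tt * tt * bb * tt⁻¹ * cc

/-- the nine elements of `F(b, c)` : `u` (with `u⁻¹` given by the word `aw` of length 20) and the letters
`c, b⁻¹, b, c, b, c, b, c` -/
def tuple : Fin 9 → FreeGroup (Fin 2) :=
  ![(FreeGroup.mk aw)⁻¹, FreeGroup.of 1, (FreeGroup.of 0)⁻¹, FreeGroup.of 0, FreeGroup.of 1,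
    FreeGroup.of 0, FreeGroup.of 1, FreeGroup.of 0, FreeGroup.of 1]

/-- the letters other than `u` -/
def lets : List (Fin 2 × Bool) :=
  [(1, true), (0, false), (0, true), (1, true), (0, true), (1, true), (0, true), (1, true)]

theorem det_eqn : (expMatrix eqn).det = 1 := by
  rw [Matrix.det_unique]
  show Multiplicative.toAdd (expSum default (eqn default)) = 1
  have h : (default : Fin 1) = 0 := rfl
  rw [h]
  simp [expSum, eqn, tt, bb, cc]

/-- `F(b, c, t) → H` -/
def psi : FreeGroup (Fin 3) →* Ext eqn :=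
  (QuotientGroup.mk' (Subgroup.normalClosure (Set.range eqn))).comp (FreeGroup.lift ![bb, cc, tt])

theorem psi_W : psi (FreeGroup.mk W) = 1 := by
  rw [W_eq]
  show (QuotientGroup.mk' (Subgroup.normalClosure (Set.range eqn)))
    (FreeGroup.lift ![bb, cc, tt] _) = 1
  rw [QuotientGroup.mk'_apply, QuotientGroup.eq_one_iff]
  apply Subgroup.subset_normalClosure
  refine ⟨0, ?_⟩
  simp [eqn]

theorem psi_letter (x : Fin 2 × Bool) :
    psi (FreeGroup.mk (emb [x])) = incl eqn (FreeGroup.mk [x]) := by
  obtain ⟨a, s⟩ := x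
  have key : psi (FreeGroup.mk [(a.castSucc, true)]) = incl eqn (FreeGroup.mk [(a, true)]) := by
    fin_cases a
    · show psi (FreeGroup.of 0) = incl eqn (FreeGroup.of 0)
      simp [psi, incl, bb]
    · show psi (FreeGroup.of 1) = incl eqn (FreeGroup.of 1)
      simp [psi, incl, cc]
  cases s with
  | true => exact key
  | false =>
    have h1 : (FreeGroup.mk [(a.castSucc, false)] : FreeGroup (Fin 3)) =
        (FreeGroup.mk [(a.castSucc, true)])⁻¹ := by
      rw [FreeGroup.inv_mk]; rfl
    have h2 : (FreeGroup.mk [(a, false)] : FreeGroup (Fin 2)) =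
        (FreeGroup.mk [(a, true)])⁻¹ := by
      rw [FreeGroup.inv_mk]; rfl
    show psi (FreeGroup.mk [(a.castSucc, false)]) = incl eqn (FreeGroup.mk [(a, false)])
    rw [h1, h2, _root_.map_inv, _root_.map_inv, key]

theorem psi_emb (L : List (Fin 2 × Bool)) :
    psi (FreeGroup.mk (emb L)) = incl eqn (FreeGroup.mk L) := by
  induction L with
  | nil => rw [← FreeGroup.one_eq_mk, _root_.map_one]; exact _root_.map_one psi
  | cons x L ih =>
    have h1 : (FreeGroup.mk (emb (x :: L)) : FreeGroup (Fin 3)) =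
        FreeGroup.mk (emb [x]) * FreeGroup.mk (emb L) := by
      rw [FreeGroup.mul_mk]; rfl
    rw [h1, mk_cons, _root_.map_mul, _root_.map_mul, psi_letter, ih]

theorem psi_item_none (s : Bool) : psi (FreeGroup.mk (item (none, s))) = 1 := by
  cases s with
  | true => exact psi_W
  | false =>
    show psi (FreeGroup.mk (FreeGroup.invRev W)) = 1
    rw [← FreeGroup.inv_mk, _root_.map_inv, psi_W, inv_one]

/-- dropping the factors `w` and `w⁻¹` -/
theorem drop (D : List ((Option (Fin 2 × Bool) × Bool) × List (Fin 3 × Bool))) :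
    ∃ T : List (Ext eqn × (Fin 2 × Bool)),
      T.map Prod.snd = D.filterMap (fun p => p.1.1) ∧
      psi (D.map (fun p => FreeGroup.mk p.2 * FreeGroup.mk (item p.1) * (FreeGroup.mk p.2)⁻¹)).prod =
        (T.map (fun p => p.1 * incl eqn (FreeGroup.mk [p.2]) * p.1⁻¹)).prod := by
  induction D with
  | nil => exact ⟨[], rfl, by simp⟩
  | cons p D ih =>
    obtain ⟨T, h1, h2⟩ := ih
    obtain ⟨⟨o, s⟩, L⟩ := p
    cases o with
    | none =>
      refine ⟨T, by simpa using h1, ?_⟩
      rw [List.map_cons, List.prod_cons, _root_.map_mul, h2, _root_.map_mul, _root_.map_mul,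
        psi_item_none, _root_.map_inv]
      simp
    | some x =>
      refine ⟨(psi (FreeGroup.mk L), x) :: T, by simpa using h1, ?_⟩
      rw [List.map_cons, List.prod_cons, _root_.map_mul, h2, _root_.map_mul, _root_.map_mul,
        _root_.map_inv]
      show psi (FreeGroup.mk L) * psi (FreeGroup.mk (emb [x])) * _ * _ = _
      rw [psi_letter, List.map_cons, List.prod_cons]

theorem data_letters : data.filterMap (fun p => p.1.1) = lets := by decide

theorem tuple_succ (i : Fin 8) : tuple i.succ = FreeGroup.mk [lets.get i] := by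
  fin_cases i <;> rfl

theorem dependent_H : Dependent (fun i => incl eqn (tuple i)) := by
  obtain ⟨T, h1, h2⟩ := drop data
  rw [← identity, psi_emb] at h2
  rw [data_letters] at h1
  have hl : T.length = 8 := by
    have := congrArg List.length h1
    simpa [lets] using this
  have hget : ∀ i : Fin 8, (T.get (i.cast hl.symm)).2 = lets.get i := by
    intro i
    have : (T.map Prod.snd)[(i : ℕ)]'(by rw [List.length_map, hl]; exact i.2) =
        lets[(i : ℕ)]'(i.2) := by
      simp only [h1]
      rfl
    rw [List.getElem_map] at this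
    exact this
  refine ⟨Fin.cons 1 (fun i : Fin 8 => (T.get (i.cast hl.symm)).1), ?_⟩
  rw [List.ofFn_succ, List.prod_cons]
  have e1 : (List.ofFn (fun i : Fin 8 =>
      (Fin.cons 1 (fun i : Fin 8 => (T.get (i.cast hl.symm)).1) : Fin 9 → Ext eqn) i.succ *
        incl eqn (tuple i.succ) *
        ((Fin.cons 1 (fun i : Fin 8 => (T.get (i.cast hl.symm)).1) : Fin 9 → Ext eqn) i.succ)⁻¹)) =
      T.map (fun p => p.1 * incl eqn (FreeGroup.mk [p.2]) * p.1⁻¹) := by
    apply List.ext_getElem
    · simp [hl]
    · intro i h3 h4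
      have h5 : i < 8 := by simpa using h3
      have h6 := hget ⟨i, h5⟩
      simp only [List.getElem_ofFn, List.getElem_map, Fin.cons_succ]
      rw [tuple_succ, ← h6]
      rfl
  rw [e1, ← h2]
  have e4 : tuple 0 = (FreeGroup.mk aw)⁻¹ := rfl
  show 1 = 1 * incl eqn (tuple 0) * 1⁻¹ * incl eqn (FreeGroup.mk aw)
  rw [e4, _root_.map_inv]
  group

theorem not_dependent_G : ¬ Dependent tuple := by
  rintro ⟨c, hc⟩
  rw [List.ofFn_succ, List.prod_cons] at hc
  -- conjugate so that `u` stands alone
  have h1 : FreeGroup.mk aw = (((List.ofFn (fun i : Fin 8 => ((c 0)⁻¹ * c i.succ,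
      some (lets.get i)))).map
        (fun p : FreeGroup (Fin 2) × Option (Fin 2 × Bool) =>
          p.1 * FreeGroup.mk (optW p.2) * p.1⁻¹)).prod) := by
    have e2 : ((List.ofFn (fun i : Fin 8 => ((c 0)⁻¹ * c i.succ, some (lets.get i)))).map
        (fun p : FreeGroup (Fin 2) × Option (Fin 2 × Bool) =>
          p.1 * FreeGroup.mk (optW p.2) * p.1⁻¹)) =
        (List.ofFn (fun i : Fin 8 => c i.succ * tuple i.succ * (c i.succ)⁻¹)).map
          (MulAut.conj (c 0)⁻¹) := by
      rw [List.map_ofFn, List.map_ofFn]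
      congr 1
      funext i
      simp only [Function.comp, MulAut.conj_apply, tuple_succ, optW, Option.toList]
      group
    rw [e2, ← map_list_prod, MulAut.conj_apply, inv_inv]
    have e3 : (List.ofFn (fun i : Fin 8 => c i.succ * tuple i.succ * (c i.succ)⁻¹)).prod =
        (c 0 * tuple 0 * (c 0)⁻¹)⁻¹ := by
      exact (inv_eq_of_mul_eq_one_right hc.symm).symm
    rw [e3]
    have e4 : tuple 0 = (FreeGroup.mk aw)⁻¹ := rfl
    rw [e4]
    group
  have h2 := deletion _ h1
  have h3 : ((List.ofFn (fun i : Fin 8 => ((c 0)⁻¹ * c i.succ, some (lets.get i)))).map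
      (fun p : FreeGroup (Fin 2) × Option (Fin 2 × Bool) => optM p.2)).sum =
        (P0 : Multiset (Fin 2 × Bool)) := by
    rw [List.map_ofFn]
    show (List.ofFn (fun i : Fin 8 => optM (some (lets.get i)))).sum = _
    decide +kernel
  rw [h3] at h2
  exact not_good h2

/-- **The answer to Q1 is negative.**  For the free group `G` on `b, c` and the single equation
`t t b t⁻¹ c = 1` (exponent sum `1`), the identity is a product of `H`-conjugates of nine elements of
`G` without being a product of `G`-conjugates of them.  In particular the assertion of Q1 is false. -/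
theorem result :
    (∃ (w : Fin 1 → Monoid.Coprod (FreeGroup (Fin 2)) (FreeGroup (Fin 1)))
      (g : Fin 9 → FreeGroup (Fin 2)),
      (expMatrix w).det = 1 ∧ Dependent (fun i => incl w (g i)) ∧ ¬ Dependent g) ∧
    ¬ ConjectureG := by
  refine ⟨⟨eqn, tuple, det_eqn, dependent_H, not_dependent_G⟩, ?_⟩
  intro H
  exact not_dependent_G (H (FreeGroup (Fin 2)) 1 le_rfl eqn (by rw [det_eqn]; exact one_ne_zero)
    9 (by norm_num) tuple dependent_H)

end Pool.Agent.Results.MP_9999b4_al.KervaireClasses
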